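import Pool.Agent.Y403.SNB.AB
import Pool.Agent.H28R3.SN.RUN
import Pool.Agent.H42R3.SN.Hull
import Pool.Agent.H43R3.SN.ZONE
import Pool.Agent.H343R3.SN.CNT
import Pool.Agent.H993R3.SN.E
import Pool.Agent.H43R3.SN.F
import Pool.Agent.H170.SN.TaskG
import Pool.Agent.H43R3.SN.TaskH
import Pool.Agent.H603R3.SN.CAP
import Pool.Agent.H957R3.SN.Cons
import Pool.Agent.H43R3.SN.SRC
import Pool.Agent.H243R3.SN.Poly

/-!
# All graph parameters between the integral sum number and the exclusive sum number are NP-hard

The sum number of a graph `G` is the least `s` such that `G` together with `s` isolated vertices has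
a labelling with different positive integers for which different vertices are adjacent iff the sum
of their labels is a label. For the integral sum number all integers may be used as labels; for the
exclusive sum number the labelling must be such that the label of a vertex of `G` is never the sum
of the labels of two vertices of `G`.

The graphs of the reduction have very few non-adjacent pairs. We show that in such graphs also for
labels which are arbitrary integers the sum of the labels of an edge is never the label of a vertex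
of the graph: otherwise almost all sums of two labels of vertices of the graph would be labels of
vertices of the graph, but there are nearly twice as many different sums as vertices. So the three
numbers agree for these graphs as far as the comparison with the threshold is concerned.
-/

set_option autoImplicit false

namespace Pool.Agent.Results.MP_daf980_lc.IntegralToExclusive

open Pool.Agent.NPC Pool.Agent.H692R2

/-- `H` is a sum graph: its vertices can be labelled by different positive integers such that
different vertices `u, v` are adjacent iff the sum of their labels is the label of a vertex. -/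
def IsSumGraph {V : Type} (H : SimpleGraph V) : Prop :=
  ∃ l : V → ℕ, Function.Injective l ∧ (∀ v, 0 < l v) ∧
    ∀ u v, u ≠ v → (H.Adj u v ↔ ∃ w, l u + l v = l w)

/-- `H` is an integral sum graph: its vertices can be labelled by different integers such that
different vertices `u, v` are adjacent iff the sum of their labels is the label of a vertex. -/
def IsIntegralSumGraph {V : Type} (H : SimpleGraph V) : Prop :=
  ∃ l : V → ℤ, Function.Injective l ∧ ∀ u v, u ≠ v → (H.Adj u v ↔ ∃ w, l u + l v = l w)

/-- The disjoint union of `G` with `s` isolated vertices. -/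
def addIsolated {V : Type} (G : SimpleGraph V) (s : ℕ) : SimpleGraph (V ⊕ Fin s) :=
  SimpleGraph.sum G (⊥ : SimpleGraph (Fin s))

/-- `G` with `s` isolated vertices has an exclusive sum labelling: a sum labelling for which no
vertex of `G` has as label the sum of the labels of two different vertices of `G`. -/
def HasExclusive {V : Type} (G : SimpleGraph V) (s : ℕ) : Prop :=
  ∃ l : V ⊕ Fin s → ℕ, Function.Injective l ∧ (∀ x, 0 < l x) ∧
    (∀ x y, x ≠ y → ((addIsolated G s).Adj x y ↔ ∃ w, l x + l y = l w)) ∧
    ∀ u v w : V, u ≠ v → l (Sum.inl u) + l (Sum.inl v) ≠ l (Sum.inl w)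

/-- The sum number of a graph: the least `s` such that `G` with `s` isolated vertices is a sum
graph. -/
noncomputable def sumNumber {V : Type} (G : SimpleGraph V) : ℕ :=
  sInf {s | IsSumGraph (addIsolated G s)}

/-- The integral sum number of a graph: the least `s` such that `G` with `s` isolated vertices is
an integral sum graph. -/
noncomputable def integralSumNumber {V : Type} (G : SimpleGraph V) : ℕ :=
  sInf {s | IsIntegralSumGraph (addIsolated G s)}

/-- The exclusive sum number of a graph: the least `s` such that `G` with `s` isolated vertices has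
an exclusive sum labelling. -/
noncomputable def exclusiveSumNumber {V : Type} (G : SimpleGraph V) : ℕ :=
  sInf {s | HasExclusive G s}

open Pool.Agent.H43R3.SN Pool.Agent.Y403.SNB

theorem adj_iff_of_lab {V : Type} {G : SimpleGraph V} {s : ℕ} {l : V ⊕ Fin s → ℕ}
    (h : IsLab G s l) (x y : V ⊕ Fin s) (hxy : x ≠ y) :
    (addIsolated G s).Adj x y ↔ ∃ w, l x + l y = l w := by
  obtain ⟨h1, h2, h3, h4⟩ := h
  rcases y with v | i
  · rcases x with u | i
    · have h5 : (addIsolated G s).Adj (Sum.inl u) (Sum.inl v) ↔ G.Adj u v := by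
        simp [addIsolated]
      rw [h5, h3 u v (fun h => hxy (by rw [h]))]
      exact ⟨fun ⟨w, hw⟩ => ⟨w, hw.symm⟩, fun ⟨w, hw⟩ => ⟨w, hw.symm⟩⟩
    · constructor
      · intro h5
        simp [addIsolated] at h5
      · rintro ⟨w, hw⟩
        exact absurd (by rw [← hw, add_comm]) (h4 (Sum.inl v) i (Ne.symm hxy) w)
  · constructor
    · intro h5
      rcases x with u | j <;> simp [addIsolated] at h5
    · rintro ⟨w, hw⟩
      exact absurd hw.symm (h4 x i hxy w)

theorem hasExclusive_of {V : Type} {G : SimpleGraph V} {s : ℕ} {l : V ⊕ Fin s → ℕ}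
    (h : IsLab G s l) (h' : ∀ u v w : V, l (Sum.inl u) + l (Sum.inl v) ≠ l (Sum.inl w)) :
    HasExclusive G s :=
  ⟨l, h.1, h.2.1, fun x y hxy => adj_iff_of_lab h x y hxy, fun u v w _ => h' u v w⟩

theorem labZ_of {V : Type} {G : SimpleGraph V} {s : ℕ}
    (h : IsIntegralSumGraph (addIsolated G s)) : ∃ l, IsLabZ G s l := by
  obtain ⟨l, h1, h3⟩ := h
  refine ⟨l, h1, ?_, ?_⟩
  · intro u v huv
    have h4 := h3 (Sum.inl u) (Sum.inl v) (fun h => huv (Sum.inl_injective h))
    have h5 : (addIsolated G s).Adj (Sum.inl u) (Sum.inl v) ↔ G.Adj u v := by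
      simp [addIsolated]
    rw [← h5, h4]
    exact ⟨fun ⟨w, hw⟩ => ⟨w, hw.symm⟩, fun ⟨w, hw⟩ => ⟨w, hw.symm⟩⟩
  · intro x i hx w hw
    have h4 := (h3 x (Sum.inr i) hx).2 ⟨w, hw.symm⟩
    cases x <;> simp [addIsolated] at h4

theorem isSumGraph_of {V : Type} {G : SimpleGraph V} {s : ℕ} (h : HasExclusive G s) :
    IsSumGraph (addIsolated G s) := by
  obtain ⟨l, h1, h2, h3, _⟩ := h
  exact ⟨l, h1, h2, h3⟩

theorem isIntegral_of {V : Type} {H : SimpleGraph V} (h : IsSumGraph H) :
    IsIntegralSumGraph H := by
  obtain ⟨l, h1, _, h3⟩ := h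
  refine ⟨fun v => (l v : ℤ), fun a b hab => h1 (Int.ofNat_inj.1 hab), fun u v huv => ?_⟩
  rw [h3 u v huv]
  constructor
  · rintro ⟨w, hw⟩
    refine ⟨w, ?_⟩
    beta_reduce
    exact_mod_cast hw
  · rintro ⟨w, hw⟩
    refine ⟨w, ?_⟩
    beta_reduce at hw
    exact_mod_cast hw

theorem sidon {u v x y : ℕ} (h1 : u < v) (h2 : x < y) (h : 2 ^ u + 2 ^ v = 2 ^ x + 2 ^ y) :
    u = x ∧ v = y := by
  have hp : ∀ {a b : ℕ}, a < b → 2 ^ a < 2 ^ b := fun h => Nat.pow_lt_pow_right (by norm_num) h
  have hq : ∀ {a b : ℕ}, a < b → 2 * 2 ^ a ≤ 2 ^ b := fun {a b} h => by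
    calc 2 * 2 ^ a = 2 ^ (a + 1) := by ring
      _ ≤ 2 ^ b := Nat.pow_le_pow_right (by norm_num) h
  have hpos : ∀ a : ℕ, 0 < 2 ^ a := fun a => by positivity
  rcases lt_trichotomy v y with h3 | h3 | h3
  · have := hp h1; have := hq h3; have := hpos x; omega
  · subst h3
    exact ⟨Nat.pow_right_injective (le_refl 2) (by simpa using h), rfl⟩
  · have := hp h2; have := hq h3; have := hpos u; omega

/-- The minimum defining the exclusive sum number exists. -/
theorem exists_exclusive (n : ℕ) (G : SimpleGraph (Fin n)) : ∃ s, HasExclusive G s := by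
  classical
  set W : Finset ℕ := (Finset.univ.filter (fun p : Fin n × Fin n => G.Adj p.1 p.2)).image
    (fun p => 2 ^ (p.1 : ℕ) + 2 ^ (p.2 : ℕ)) with hW
  obtain ⟨l, hl, hl'⟩ := exlX (Fin n) G (fun i => 2 ^ (i : ℕ)) (2 ^ n) W
    (by
      intro i j hij
      exact Fin.ext (Nat.pow_right_injective (le_refl 2) hij))
    (fun v => Nat.pow_le_pow_right (by norm_num) v.2.le)
    (by
      intro u v huv
      rw [hW, Finset.mem_image]
      constructor
      · intro h
        exact ⟨(u, v), Finset.mem_filter.2 ⟨Finset.mem_univ _, h⟩, rfl⟩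
      · rintro ⟨⟨x, y⟩, h1, h2⟩
        rw [Finset.mem_filter] at h1
        have h3 : G.Adj x y := h1.2
        have hxy := h3.ne
        simp only at h2
        rcases lt_or_gt_of_ne (fun h => huv (Fin.ext h) : (u : ℕ) ≠ v) with h4 | h4 <;>
        rcases lt_or_gt_of_ne (fun h => hxy (Fin.ext h) : (x : ℕ) ≠ y) with h5 | h5
        · obtain ⟨h6, h7⟩ := sidon h5 h4 h2
          rw [← Fin.ext h6, ← Fin.ext h7]; exact h3
        · obtain ⟨h6, h7⟩ := sidon h5 h4 (by rw [add_comm]; exact h2)
          rw [← Fin.ext h6, ← Fin.ext h7]; exact h3.symm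
        · obtain ⟨h6, h7⟩ := sidon h5 h4 (by rw [h2, add_comm])
          rw [← Fin.ext h6, ← Fin.ext h7]; exact h3.symm
        · obtain ⟨h6, h7⟩ := sidon h5 h4 (by rw [add_comm, h2, add_comm])
          rw [← Fin.ext h6, ← Fin.ext h7]; exact h3)
    (by
      intro w hw
      rw [hW, Finset.mem_image] at hw
      obtain ⟨⟨x, y⟩, _, h2⟩ := hw
      have h3 : 2 ^ (x : ℕ) ≤ 2 ^ n := Nat.pow_le_pow_right (by norm_num) x.2.le
      have h4 : 2 ^ (y : ℕ) ≤ 2 ^ n := Nat.pow_le_pow_right (by norm_num) y.2.le
      simp only at h2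
      omega)
  exact ⟨W.card, hasExclusive_of hl hl'⟩

/-- The minimum in the definition of the exclusive sum number is attained. -/
theorem exclusive_spec (n : ℕ) (G : SimpleGraph (Fin n)) : HasExclusive G (exclusiveSumNumber G) :=
  Nat.sInf_mem (s := {s | HasExclusive G s}) (exists_exclusive n G)

/-- The minimum in the definition of the sum number is attained. -/
theorem sum_spec (n : ℕ) (G : SimpleGraph (Fin n)) : IsSumGraph (addIsolated G (sumNumber G)) :=
  Nat.sInf_mem (s := {s | IsSumGraph (addIsolated G s)})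
    ⟨_, isSumGraph_of (exclusive_spec n G)⟩

/-- The minimum in the definition of the integral sum number is attained. -/
theorem integral_spec (n : ℕ) (G : SimpleGraph (Fin n)) :
    IsIntegralSumGraph (addIsolated G (integralSumNumber G)) :=
  Nat.sInf_mem (s := {s | IsIntegralSumGraph (addIsolated G s)})
    ⟨_, isIntegral_of (sum_spec n G)⟩

theorem integral_le_sum (n : ℕ) (G : SimpleGraph (Fin n)) : integralSumNumber G ≤ sumNumber G :=
  Nat.sInf_le (isIntegral_of (sum_spec n G))

theorem sum_le_exclusive (n : ℕ) (G : SimpleGraph (Fin n)) :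
    sumNumber G ≤ exclusiveSumNumber G :=
  Nat.sInf_le (isSumGraph_of (exclusive_spec n G))

/-- The complete graph with four vertices is not an integral sum graph. -/
theorem not_K4 (h : IsIntegralSumGraph (addIsolated (⊤ : SimpleGraph (Fin 4)) 0)) : False := by
  obtain ⟨l, h1, h3⟩ := h
  set f : Fin 4 → ℤ := fun i => l (Sum.inl i) with hf
  have hfi : Function.Injective f := fun a b hab => Sum.inl_injective (h1 hab)
  have hmono : StrictMono (f ∘ Tuple.sort f) :=
    (Tuple.monotone_sort f).strictMono_of_injective (hfi.comp (Equiv.injective _))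
  set b : Fin 4 → ℤ := f ∘ Tuple.sort f with hb
  have hsum : ∀ i j : Fin 4, i ≠ j → ∃ k : Fin 4, b i + b j = b k := by
    intro i j hij
    have hne : (Tuple.sort f i) ≠ (Tuple.sort f j) := fun h => hij ((Equiv.injective _) h)
    have h4 := (h3 (Sum.inl (Tuple.sort f i)) (Sum.inl (Tuple.sort f j))
      (fun h => hne (Sum.inl_injective h))).1 (by simpa [addIsolated] using hne)
    obtain ⟨w, hw⟩ := h4
    rcases w with w | w
    · refine ⟨(Tuple.sort f).symm w, ?_⟩
      rw [hb]
      simp only [Function.comp_apply, Equiv.apply_symm_apply]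
      exact hw
    · exact w.elim0
  have h01 : b 0 < b 1 := hmono (by decide)
  have h12 : b 1 < b 2 := hmono (by decide)
  have h23 : b 2 < b 3 := hmono (by decide)
  obtain ⟨k, hk⟩ := hsum 2 3 (by decide)
  obtain ⟨k', hk'⟩ := hsum 0 1 (by decide)
  have h5 : b k ≤ b 3 := hmono.monotone (by omega)
  have h6 : b 0 ≤ b k' := hmono.monotone (by omega)
  omega

/-- The reduction: as for the sum number, with the complete graph on four vertices in the trivial
case. -/
noncomputable def red (I : List (ℕ × ℕ × ℕ) × ℕ) : FinGraph × ℕ :=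
  if (redI I).2 = 0 then (⟨4, ⊤⟩, 0) else redI I

theorem poly_red : Poly red := by
  have h : Poly redI := Pool.Agent.NPC.SNP.taskPOLY
  exact NPC.Poly.ite (p := fun I => (redI I).2 = 0)
    (NPC.Poly.decide_eq (NPC.Poly.snd h) (NPC.Poly.const 0)) (NPC.Poly.const _) h

open Pool.Agent.NPC.H632 Pool.Agent.H557R2.Tri in
theorem red_correct (I : List (ℕ × ℕ × ℕ) × ℕ) (hI : Pr I.1 I.2) :
    (X3C I → exclusiveSumNumber (red I).1.graph ≤ (red I).2) ∧
      (integralSumNumber (red I).1.graph ≤ (red I).2 → X3C I) := by
  have hq : redI I = redJ I := by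
    unfold redI
    rw [Nat.min_eq_left (Pool.Agent.NPC.SNP.q_le hI)]
  have hsrc := Pool.Agent.H43R3.SN.SRC.taskSRC I hI
  have hb : 1 ≤ bb I := by
    have := hI.ne
    have h2 : 0 < I.1.length := List.length_pos_iff.2 this
    unfold bb
    omega
  have hpos : ∀ i < (sizes I).length, 1 ≤ (sizes I).getD i 0 := by
    intro i hi
    rw [List.getD_eq_getElem _ _ hi]
    have h1 : (sizes I)[i] ∈ sizes I := List.getElem_mem hi
    unfold sizes at h1
    rw [List.mem_map] at h1
    obtain ⟨e, _, he⟩ := h1
    have h2 : (sizes I)[i] =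
        min (Pool.Agent.H43R3.SN.sz I.1.length I.2 e) (20 * MM I.1.length I.2) := by
      rw [he]; rfl
    rw [h2]
    have h3 : 1 ≤ MM I.1.length I.2 := by unfold MM; omega
    have h4 : 1 ≤ wt e.1 := by unfold wt; split_ifs <;> norm_num
    have h5 : 1 ≤ MM I.1.length I.2 * wt e.1 := Nat.one_le_iff_ne_zero.2 (by
      intro h; rcases Nat.mul_eq_zero.1 h with h | h <;> omega)
    refine le_min ?_ (by omega)
    unfold Pool.Agent.H43R3.SN.sz
    omega
  by_cases hsum : (sizes I).sum = bb I * BB I
  · have hJ : redI I = (grI (sizes I) (bb I) (BB I), kI (sizes I) (bb I) (BB I)) := by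
      rw [hq]
      unfold redJ
      rw [if_pos hsum]
    have hk : kI (sizes I) (bb I) (BB I) ≠ 0 := by
      unfold kI XX
      omega
    have hr : red I = (grI (sizes I) (bb I) (BB I), kI (sizes I) (bb I) (BB I)) := by
      unfold red
      rw [hJ, if_neg hk]
    rw [hr]
    constructor
    · intro h
      obtain ⟨s, hs, l, hl, hl'⟩ := partBX Pool.Agent.H957R3.SN.taskCONS hb (hsrc.1 h).2
      exact (Nat.sInf_le (hasExclusive_of hl hl')).trans hs
    · intro h
      obtain ⟨l, hl⟩ := labZ_of (integral_spec _ (grI (sizes I) (bb I) (BB I)).graph)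
      exact hsrc.2 ⟨hsum, partAZ Pool.Agent.H993R3.SN.taskE taskF Pool.Agent.H170.SN.taskG taskH
        Pool.Agent.H603R3.SN.taskCAP Pool.Agent.H28R3.SN.RUN.run Pool.Agent.H42R3.SN.taskHULL
        Pool.Agent.H43R3.SN.ZONE.taskZONE Pool.Agent.H343R3.SN.taskCNT hb hpos hsum h hl⟩
  · have hJ : redI I = (⟨2, ⊤⟩, 0) := by
      rw [hq]
      unfold redJ
      rw [if_neg hsum]
    have hr : red I = (⟨4, ⊤⟩, 0) := by
      unfold red
      rw [hJ, if_pos rfl]
    rw [hr]
    constructor
    · intro h
      exact absurd (hsrc.1 h).1 hsum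
    · intro h
      exfalso
      have h1 := integral_spec 4 (⊤ : SimpleGraph (Fin 4))
      have h2 : integralSumNumber (⊤ : SimpleGraph (Fin 4)) = 0 := Nat.le_zero.1 h
      rw [h2] at h1
      exact not_K4 h1

theorem hard (f : FinGraph → ℕ) (h1 : ∀ G, integralSumNumber G.graph ≤ f G)
    (h2 : ∀ G, f G ≤ exclusiveSumNumber G.graph) :
    NPHardP (fun I : FinGraph × ℕ => f I.1 ≤ I.2) := by
  refine (Pool.Agent.H557R2.Tri.hardPr_X3Cr.trans (Pr' := fun _ => True)
    poly_red (fun _ _ => trivial) (fun I hI => ?_)).toHardI.toNPHardP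
  obtain ⟨k1, k2⟩ := red_correct I hI
  exact ⟨fun h => (h2 _).trans (k1 h), fun h => k2 ((h1 _).trans h)⟩

/-- **Every graph parameter between the integral sum number and the exclusive sum number is
NP-hard to compute.** If `integralSumNumber G ≤ f G ≤ exclusiveSumNumber G` for all finite graphs
`G`, then it is `NP`-hard (under polynomial-time many-one reductions) to decide, for a finite graph
`G` (given by its adjacency matrix) and a natural number `k` (given in binary), whether `f G ≤ k`.
This holds in particular for the integral sum number, the sum number and the exclusive sum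
number. -/
theorem result :
    (∀ f : FinGraph → ℕ, (∀ G, integralSumNumber G.graph ≤ f G) →
      (∀ G, f G ≤ exclusiveSumNumber G.graph) →
      NPHardP (fun I : FinGraph × ℕ => f I.1 ≤ I.2)) ∧
    (∀ G : FinGraph, integralSumNumber G.graph ≤ sumNumber G.graph ∧
      sumNumber G.graph ≤ exclusiveSumNumber G.graph) ∧
    NPHardP (fun I : FinGraph × ℕ => integralSumNumber I.1.graph ≤ I.2) ∧
    NPHardP (fun I : FinGraph × ℕ => sumNumber I.1.graph ≤ I.2) ∧
    NPHardP (fun I : FinGraph × ℕ => exclusiveSumNumber I.1.graph ≤ I.2) := by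
  have a1 : ∀ G : FinGraph, integralSumNumber G.graph ≤ sumNumber G.graph :=
    fun G => integral_le_sum _ _
  have a2 : ∀ G : FinGraph, sumNumber G.graph ≤ exclusiveSumNumber G.graph :=
    fun G => sum_le_exclusive _ _
  exact ⟨hard, fun G => ⟨a1 G, a2 G⟩,
    hard (fun G => integralSumNumber G.graph) (fun _ => le_rfl) (fun G => (a1 G).trans (a2 G)),
    hard (fun G => sumNumber G.graph) a1 a2,
    hard (fun G => exclusiveSumNumber G.graph) (fun G => (a1 G).trans (a2 G)) (fun _ => le_rfl)⟩

end Pool.Agent.Results.MP_daf980_lc.IntegralToExclusive
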